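import Pool.Agent.Helper62.MU.St

set_option autoImplicit false

open MeasureTheory Metric Set Filter Topology Polynomial
open scoped RealInnerProductSpace ContDiff

namespace Pool.Agent.Helper71.MU

open Pool.Agent.Helper62.MU
open Pool.Agent.Helper62.Mink
open Pool.Agent.Helper62.Mink.Nec (consE norm_consE integral_consE wt wt_cont wt_nonneg wt_le wt_zero
  wt_integral_pos)

lemma sg_pos (x : ℝ) : 0 < sg x := Real.sqrt_pos.2 (by positivity)

lemma sg_sq (x : ℝ) : sg x ^ 2 = 1 + x ^ 2 := Real.sq_sqrt (by positivity)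

lemma one_le_sg (x : ℝ) : 1 ≤ sg x := by
  unfold sg
  rw [Real.one_le_sqrt]
  nlinarith [sq_nonneg x]

lemma sg_cont : Continuous sg := by unfold sg; fun_prop

lemma consE_cont {m : ℕ} : Continuous (fun p : ℝ × E m => consE p.1 p.2) := by
  unfold consE
  refine (PiLp.continuous_toLp 2 _).comp ?_
  refine continuous_pi fun i => ?_
  refine Fin.cases ?_ (fun j => ?_) i
  · simpa using continuous_fst
  · simp only [Fin.cons_succ]
    fun_prop

lemma norm_consE_unit {m : ℕ} (x : ℝ) {z : E m} (hz : ‖z‖ = 1) : ‖consE x z‖ = sg x := by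
  rw [norm_consE, hz]
  unfold sg
  congr 1
  ring

lemma consE_smul {m : ℕ} (c x : ℝ) (z : E m) : c • consE x z = consE (c * x) (c • z) := by
  ext i
  refine Fin.cases ?_ (fun j => ?_) i
  · simp
  · simp

lemma exists_bd {n : ℕ} {F : E n → ℝ} (hc : ContinuousOn F {0}ᶜ)
    (hF : ∀ c : ℝ, 0 < c → ∀ w, F (c • w) = c * F w) :
    ∃ C : ℝ, 0 ≤ C ∧ ∀ w, |F w| ≤ C * ‖w‖ := by
  have hs : ContinuousOn F (sphere (0 : E n) 1) := hc.mono fun w hw => by
    intro h0
    simp only [mem_singleton_iff] at h0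
    rw [h0] at hw
    simp at hw
  obtain ⟨M, hM⟩ := (isCompact_sphere (0 : E n) 1).exists_bound_of_continuousOn hs
  refine ⟨max M 0, le_max_right _ _, fun w => ?_⟩
  rcases eq_or_ne w 0 with rfl | hw
  · have := hF 2 (by norm_num) 0
    rw [smul_zero] at this
    have h0 : F 0 = 0 := by linarith
    simp [h0]
  · have hn : 0 < ‖w‖ := norm_pos_iff.2 hw
    have h1 : w = ‖w‖ • (‖w‖⁻¹ • w) := by rw [smul_smul, mul_inv_cancel₀ hn.ne', one_smul]
    have h2 : F w = ‖w‖ * F (‖w‖⁻¹ • w) := by
      conv_lhs => rw [h1]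
      exact hF _ hn _
    rw [h2, abs_mul, abs_of_pos hn, mul_comm]
    refine mul_le_mul_of_nonneg_right ?_ hn.le
    refine le_trans ?_ (le_max_left _ _)
    refine hM _ ?_
    simp [norm_smul, hn.ne']

lemma consE_ne {m : ℕ} (x : ℝ) {z : E m} (hz : ‖z‖ = 1) : consE x z ≠ 0 := by
  intro h
  have := norm_consE_unit x hz
  rw [h, norm_zero] at this
  exact (sg_pos x).ne this

lemma SI_cont {m : ℕ} {F : E (m + 2) → ℝ} (hc : ContinuousOn F {0}ᶜ) :
    Continuous (fun x : ℝ => SI (fun z : E (m + 1) => F (consE x z))) := by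
  have h1 : Continuous (Function.uncurry
      (fun (x : ℝ) (z : sphere (0 : E (m + 1)) 1) => F (consE x (z : E (m + 1))))) := by
    refine hc.comp_continuous ?_ ?_
    · exact consE_cont.comp (continuous_fst.prodMk (continuous_subtype_val.comp continuous_snd))
    · intro p
      exact consE_ne p.1 (by simp)
  have := continuous_parametric_integral_of_continuous
    (μ := (volume : Measure (E (m + 1))).toSphere) h1 (s := univ) isCompact_univ
  simpa [SI] using this

lemma SI_bd {m : ℕ} {F : E (m + 2) → ℝ} {C : ℝ} (hC : ∀ w, |F w| ≤ C * ‖w‖) (x : ℝ) :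
    |SI (fun z : E (m + 1) => F (consE x z))| ≤ C * sg x * Sm (m + 1) := by
  unfold SI Sm
  rw [← Real.norm_eq_abs]
  refine norm_integral_le_of_norm_le_const (Filter.Eventually.of_forall fun w => ?_)
  rw [Real.norm_eq_abs]
  refine (hC _).trans_eq ?_
  rw [norm_consE_unit x (by simp)]

lemma PL_int {m : ℕ} {F : E (m + 2) → ℝ} (hc : ContinuousOn F {0}ᶜ)
    (hF : ∀ c : ℝ, 0 < c → ∀ w, F (c • w) = c * F w) :
    Integrable (fun x : ℝ => SI (fun z : E (m + 1) => F (consE x z)) / sg x ^ (m + 3)) := by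
  obtain ⟨C, hC0, hC⟩ := exists_bd hc hF
  refine Integrable.mono' (integrable_inv_one_add_sq.const_mul (C * Sm (m + 1))) ?_ ?_
  · refine Continuous.aestronglyMeasurable ?_
    exact (SI_cont hc).div (sg_cont.pow _) fun x => pow_ne_zero _ (sg_pos x).ne'
  · refine Filter.Eventually.of_forall fun x => ?_
    have h1 := SI_bd (m := m) hC x
    have h2 := one_le_sg x
    have h3 := sg_pos x
    have h4 : 0 ≤ Sm (m + 1) := Sm_nonneg _
    rw [Real.norm_eq_abs, abs_div, abs_of_pos (pow_pos h3 (m + 3)), div_le_iff₀ (pow_pos h3 _),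
      ← sg_sq]
    refine h1.trans ?_
    have h5 : (1 : ℝ) ≤ sg x ^ m := one_le_pow₀ h2
    have h6 : C * Sm (m + 1) * (sg x ^ 2)⁻¹ * sg x ^ (m + 3)
        = C * sg x * Sm (m + 1) * sg x ^ m := by
      have hne : sg x ≠ 0 := h3.ne'
      rw [show m + 3 = m + 1 + 2 by ring, pow_add (sg x) (m + 1) 2, pow_succ (sg x) m]
      field_simp
    rw [h6]
    exact le_mul_of_one_le_right (by positivity) h5

theorem hPL : StPL := by
  intro m F hc hF
  refine ⟨PL_int hc hF, ?_⟩
  obtain ⟨C, hC0, hC⟩ := exists_bd hc hF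
  set J : ℝ := ∫ r in Ioi (0 : ℝ), r ^ (m + 2) * wt r with hJ
  have hJ0 : 0 < J := wt_integral_pos _
  have hFm : Measurable F := measurable_of_continuousOn_compl_singleton 0 hc
  have hwm : Measurable wt := wt_cont.measurable
  have hcm : Measurable (fun p : ℝ × E (m + 1) => consE p.1 p.2) := consE_cont.measurable
  -- the function on the product
  set Φ : ℝ → E (m + 1) → ℝ := fun y z => F (consE y z) * wt ‖consE y z‖ with hΦ
  have hΦm : Measurable (Function.uncurry Φ) := by
    simp only [hΦ, Function.uncurry_def]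
    exact (hFm.comp hcm).mul (hwm.comp (measurable_norm.comp hcm))
  have hΦb : ∀ y z, |Φ y z| ≤ C := by
    intro y z
    simp only [hΦ, abs_mul]
    rw [abs_of_nonneg (wt_nonneg _)]
    rcases le_total 1 ‖consE y z‖ with h | h
    · rw [wt_zero h]; simpa using hC0
    · have h1 := wt_le (norm_nonneg (consE y z))
      calc _ ≤ (C * ‖consE y z‖) * 1 :=
            mul_le_mul (hC _) h1 (wt_nonneg _) (mul_nonneg hC0 (norm_nonneg _))
        _ ≤ C * 1 * 1 := by gcongr
        _ = C := by ring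
  have hΦ0 : ∀ y z, 1 < |y| ∨ 1 < ‖z‖ → Φ y z = 0 := by
    intro y z h
    have : 1 ≤ ‖consE y z‖ := by
      rw [norm_consE, Real.one_le_sqrt]
      rcases h with h | h
      · have : 1 < y ^ 2 := by rw [← sq_abs]; nlinarith
        nlinarith [sq_nonneg ‖z‖]
      · nlinarith [sq_nonneg y, norm_nonneg z]
    simp only [hΦ, wt_zero this]; ring
  have hI1 : Integrable (fun p : ℝ × E (m + 1) => Φ p.1 p.2) := by
    have hs : (Icc (-1 : ℝ) 1 ×ˢ closedBall (0 : E (m + 1)) 1).indicator
        (fun p : ℝ × E (m + 1) => Φ p.1 p.2) = fun p : ℝ × E (m + 1) => Φ p.1 p.2 := by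
      refine indicator_eq_self.2 fun p hp => ?_
      by_contra hcon
      refine hp (hΦ0 _ _ ?_)
      simp only [mem_prod, mem_Icc, mem_closedBall, dist_zero_right, not_and_or, not_le] at hcon
      rcases hcon with (h | h) | h
      · left; rw [lt_abs]; right; linarith
      · left; rw [lt_abs]; left; linarith
      · right; exact h
    rw [← hs, integrable_indicator_iff (measurableSet_Icc.prod measurableSet_closedBall)]
    refine Measure.integrableOn_of_bounded (M := C) ?_ ?_ ?_
    · exact ((isCompact_Icc.prod (isCompact_closedBall _ _)).measure_lt_top).ne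
    · exact hΦm.aestronglyMeasurable
    · exact Filter.Eventually.of_forall fun p => hΦb _ _
  -- the scaled function
  set H : ℝ → E (m + 1) → ℝ := fun x z => ‖z‖ * Φ (‖z‖ * x) z with hH
  have hHm : Measurable (Function.uncurry H) := by
    have e : Function.uncurry H = fun p : ℝ × E (m + 1) =>
        ‖p.2‖ * (Function.uncurry Φ) (‖p.2‖ * p.1, p.2) := rfl
    rw [e]
    refine (measurable_norm.comp measurable_snd).mul (hΦm.comp ?_)
    exact ((measurable_norm.comp measurable_snd).mul measurable_fst).prodMk measurable_snd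
  have hne : ∀ᵐ z : E (m + 1), z ≠ 0 := by
    rw [ae_iff]
    simp
  have hsc : ∀ (g : ℝ → ℝ) (z : E (m + 1)), z ≠ 0 →
      ∫ x, ‖z‖ * g (‖z‖ * x) = ∫ y, g y := by
    intro g z hz
    have hn : 0 < ‖z‖ := norm_pos_iff.2 hz
    rw [integral_const_mul, Measure.integral_comp_mul_left, abs_of_pos (inv_pos.2 hn), smul_eq_mul,
      ← mul_assoc, mul_inv_cancel₀ hn.ne', one_mul]
  have hHI : Integrable (fun p : ℝ × E (m + 1) => H p.1 p.2) := by
    rw [Measure.volume_eq_prod] at hI1 ⊢
    refine (integrable_prod_iff' hHm.aestronglyMeasurable).2 ?_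
    constructor
    · filter_upwards [hI1.prod_left_ae, hne] with z h1 h2
      have hn : 0 < ‖z‖ := norm_pos_iff.2 h2
      exact ((integrable_comp_mul_left_iff _ hn.ne').2 h1).const_mul ‖z‖
    · refine (hI1.integral_norm_prod_right).congr ?_
      filter_upwards [hne] with z h2
      rw [← hsc (fun y => ‖Φ y z‖) z h2]
      refine integral_congr_ae (Filter.Eventually.of_forall fun x => ?_)
      change ‖z‖ * ‖Φ (‖z‖ * x) z‖ = ‖‖z‖ * Φ (‖z‖ * x) z‖
      rw [norm_mul ‖z‖, norm_norm]
  have e1 : SI F * J = ∫ p : ℝ × E (m + 1), Φ p.1 p.2 := by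
    have h1 := integral_polar (n := m + 2) (by omega) F 1 wt
      (fun c hc w _ => by rw [hF c hc w, pow_one])
    have h2 := integral_consE (fun w : E (m + 2) => F w * wt ‖w‖)
    rw [hJ, SI]
    rw [show m + 2 - 1 + 1 = m + 2 by omega] at h1
    rw [← h1, h2]
  have e2 : ∫ p : ℝ × E (m + 1), Φ p.1 p.2 = ∫ p : ℝ × E (m + 1), H p.1 p.2 := by
    rw [Measure.volume_eq_prod] at hI1 hHI ⊢
    rw [integral_prod_symm _ hI1, integral_prod_symm _ hHI]
    refine integral_congr_ae ?_
    filter_upwards [hne] with z h2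
    exact (hsc (fun y => Φ y z) z h2).symm
  have e3 : ∀ x : ℝ, ∫ z, H x z = SI (fun z : E (m + 1) => F (consE x z)) / sg x ^ (m + 3) * J := by
    intro x
    have hs := sg_pos x
    have h1 := integral_polar (n := m + 1) (by omega)
      (fun z : E (m + 1) => ‖z‖ ^ 2 * F (consE x (‖z‖⁻¹ • z))) 2 (fun r => wt (sg x * r))
      (fun c hc z _ => by
        rw [norm_smul, Real.norm_eq_abs, abs_of_pos hc, smul_smul]
        have : (c * ‖z‖)⁻¹ * c = ‖z‖⁻¹ := by field_simp
        rw [this]; ring)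
    have h2 : ∫ z, H x z = ∫ z : E (m + 1), (‖z‖ ^ 2 * F (consE x (‖z‖⁻¹ • z))) * wt (sg x * ‖z‖) := by
      refine integral_congr_ae ?_
      filter_upwards [hne] with z hz
      have hn : 0 < ‖z‖ := norm_pos_iff.2 hz
      have h3 : consE (‖z‖ * x) z = ‖z‖ • consE x (‖z‖⁻¹ • z) := by
        rw [consE_smul, smul_smul, mul_inv_cancel₀ hn.ne', one_smul]
      have h4 : ‖‖z‖⁻¹ • z‖ = 1 := by simp [norm_smul, hn.ne']
      simp only [hH, hΦ]
      rw [h3, hF _ hn, norm_smul, norm_norm, norm_consE_unit x h4, mul_comm (sg x)]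
      ring
    have h5 : ∫ r in Ioi (0 : ℝ), r ^ (m + 1 - 1 + 2) * wt (sg x * r) = J / sg x ^ (m + 3) := by
      have h6 := integral_comp_mul_left_Ioi (fun r => r ^ (m + 2) * wt r) 0 hs
      rw [mul_zero, smul_eq_mul, ← hJ] at h6
      have h7 : ∫ r in Ioi (0 : ℝ), (sg x * r) ^ (m + 2) * wt (sg x * r)
          = sg x ^ (m + 2) * ∫ r in Ioi (0 : ℝ), r ^ (m + 2) * wt (sg x * r) := by
        rw [← integral_const_mul]
        refine integral_congr_ae (Filter.Eventually.of_forall fun r => ?_)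
        simp only
        ring
      rw [h7] at h6
      rw [show m + 1 - 1 + 2 = m + 2 by omega, eq_div_iff (pow_ne_zero _ hs.ne'), pow_succ]
      have h8 : (∫ r in Ioi (0 : ℝ), r ^ (m + 2) * wt (sg x * r)) * (sg x ^ (m + 2) * sg x)
          = (sg x ^ (m + 2) * ∫ r in Ioi (0 : ℝ), r ^ (m + 2) * wt (sg x * r)) * sg x := by ring
      rw [h8, h6]
      field_simp
    have h9 : (∫ w : sphere (0 : E (m + 1)) 1, ‖(w : E (m + 1))‖ ^ 2 *
        F (consE x (‖(w : E (m + 1))‖⁻¹ • (w : E (m + 1)))) ∂(volume : Measure (E (m + 1))).toSphere)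
        = SI (fun z : E (m + 1) => F (consE x z)) := by
      unfold SI
      refine integral_congr_ae (Filter.Eventually.of_forall fun w => ?_)
      have : ‖(w : E (m + 1))‖ = 1 := by simp
      simp only [this]
      simp
    rw [h2, h1, h5, h9]
    ring
  have e4 : ∫ p : ℝ × E (m + 1), H p.1 p.2
      = (∫ x : ℝ, SI (fun z : E (m + 1) => F (consE x z)) / sg x ^ (m + 3)) * J := by
    rw [← integral_mul_const]
    rw [Measure.volume_eq_prod] at hHI ⊢
    rw [integral_prod _ hHI]
    exact integral_congr_ae (Filter.Eventually.of_forall fun x => e3 x)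
  have e5 := e1.trans (e2.trans e4)
  exact mul_right_cancel₀ hJ0.ne' e5

end Pool.Agent.Helper71.MU
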